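import Pool.Agent.Results.MP_d1a94a_nt.PerturbedSquares

/-!
# MP_6d0c3f_nt: a positive triangular number, two weighted cubes and a randomly perturbed cube

Let `2/9 < δ ≤ 2/3` and let `ξ n` be independent random nonnegative integers such that each integer
`j ≤ n ^ (3 δ)` is the value of `ξ n` with probability at least `κ / n ^ (3 δ)`, for instance uniform on the
integers `≤ n ^ (3 δ)`. Here `3 δ` may be any number above `2/3`, so that the *perturbed cube* `n ^ 3 + ξ n`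
may be taken to differ from `n ^ 3` by much less than `n`. Almost surely, for all positive integers `b` and
`c`, the number of representations `m = w (w + 1) / 2 + (x ^ 3 + ξ x) + b y ^ 3 + c z ^ 3`, `w ≥ 1`,
`x, y, z ≥ 0`, tends to infinity with `m`.
-/

open MeasureTheory ProbabilityTheory Filter

namespace Pool.Agent.Results.MP_6d0c3f_nt.PerturbedCube

open Pool.Agent.Results.MP_d1a94a_nt.PerturbedSquares

/-- Gaps of the weighted cubes of a residue class (shifted to start at zero). -/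
theorem gap_weighted (b r R : ℕ) (hb : 1 ≤ b) (hR : 1 ≤ R) : Run7.h332.WP.Gap
    (Set.range fun j : ℕ => b * (3 * r ^ 2 * (R * j) + 3 * r * (R * j) ^ 2 + (R * j) ^ 3))
    (1 - 1 / ((3 : ℕ) : ℝ)) := by
  have hS : 1 ≤ r + R := by omega
  refine Run7.h332.WP.gap_seq 3 (by norm_num) (14 * b * (r + R) ^ 3) _ (by simp) (fun j => ?_)
    (fun j => ?_)
  · show j ^ 3 ≤ 14 * b * (r + R) ^ 3 *
      (b * (3 * r ^ 2 * (R * j) + 3 * r * (R * j) ^ 2 + (R * j) ^ 3))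
    have h1 : j ^ 3 ≤ (R * j) ^ 3 := Nat.pow_le_pow_left (Nat.le_mul_of_pos_left j hR) 3
    have h2 : 1 ≤ 14 * b * (r + R) ^ 3 := by
      have h3 : 1 ≤ (r + R) ^ 3 := Nat.one_le_pow _ _ hS
      have h4 : 1 ≤ 14 * b := by omega
      exact Nat.mul_pos h4 h3
    calc j ^ 3 ≤ (R * j) ^ 3 := h1
      _ ≤ 3 * r ^ 2 * (R * j) + 3 * r * (R * j) ^ 2 + (R * j) ^ 3 := Nat.le_add_left _ _
      _ ≤ b * (3 * r ^ 2 * (R * j) + 3 * r * (R * j) ^ 2 + (R * j) ^ 3) :=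
        Nat.le_mul_of_pos_left _ hb
      _ ≤ 14 * b * (r + R) ^ 3 *
          (b * (3 * r ^ 2 * (R * j) + 3 * r * (R * j) ^ 2 + (R * j) ^ 3)) :=
        Nat.le_mul_of_pos_left _ h2
  · show b * (3 * r ^ 2 * (R * (j + 1)) + 3 * r * (R * (j + 1)) ^ 2 + (R * (j + 1)) ^ 3) ≤
      b * (3 * r ^ 2 * (R * j) + 3 * r * (R * j) ^ 2 + (R * j) ^ 3) +
        14 * b * (r + R) ^ 3 * (j ^ (3 - 1) + 1)
    have h1 : r ^ 2 * R ≤ (r + R) ^ 3 := by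
      calc r ^ 2 * R ≤ (r + R) ^ 2 * (r + R) := by gcongr <;> omega
        _ = (r + R) ^ 3 := by ring
    have h2 : r * R ^ 2 ≤ (r + R) ^ 3 := by
      calc r * R ^ 2 ≤ (r + R) * (r + R) ^ 2 := by gcongr <;> omega
        _ = (r + R) ^ 3 := by ring
    have h3 : R ^ 3 ≤ (r + R) ^ 3 := by gcongr; omega
    have h4 : 3 * r ^ 2 * (R * (j + 1)) + 3 * r * (R * (j + 1)) ^ 2 + (R * (j + 1)) ^ 3 =
        3 * r ^ 2 * (R * j) + 3 * r * (R * j) ^ 2 + (R * j) ^ 3 +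
          (3 * (r ^ 2 * R) + 3 * (r * R ^ 2) * (2 * j + 1) + R ^ 3 * (3 * j ^ 2 + 3 * j + 1)) := by
      ring
    have h5 : 3 * (r ^ 2 * R) + 3 * (r * R ^ 2) * (2 * j + 1) + R ^ 3 * (3 * j ^ 2 + 3 * j + 1) ≤
        3 * (r + R) ^ 3 + 3 * (r + R) ^ 3 * (2 * j + 1) +
          (r + R) ^ 3 * (3 * j ^ 2 + 3 * j + 1) := by gcongr
    have h6 : 3 * (r + R) ^ 3 + 3 * (r + R) ^ 3 * (2 * j + 1) +
          (r + R) ^ 3 * (3 * j ^ 2 + 3 * j + 1) = (r + R) ^ 3 * (3 * j ^ 2 + 9 * j + 7) := by ring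
    have h7 : 3 * j ^ 2 + 9 * j + 7 ≤ 14 * (j ^ 2 + 1) := by
      zify
      nlinarith [sq_nonneg ((j : ℤ) - 1)]
    have h8 : (r + R) ^ 3 * (3 * j ^ 2 + 9 * j + 7) ≤ (r + R) ^ 3 * (14 * (j ^ 2 + 1)) :=
      Nat.mul_le_mul_left _ h7
    have h10 : 3 * r ^ 2 * (R * (j + 1)) + 3 * r * (R * (j + 1)) ^ 2 + (R * (j + 1)) ^ 3 ≤
        3 * r ^ 2 * (R * j) + 3 * r * (R * j) ^ 2 + (R * j) ^ 3 +
          (r + R) ^ 3 * (14 * (j ^ 2 + 1)) := by omega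
    have h11 := Nat.mul_le_mul_left b h10
    have h12 : b * (3 * r ^ 2 * (R * j) + 3 * r * (R * j) ^ 2 + (R * j) ^ 3 +
          (r + R) ^ 3 * (14 * (j ^ 2 + 1))) =
        b * (3 * r ^ 2 * (R * j) + 3 * r * (R * j) ^ 2 + (R * j) ^ 3) +
        14 * b * (r + R) ^ 3 * (j ^ (3 - 1) + 1) := by
      norm_num
      ring
    rw [h12] at h11
    exact h11

/-- **Main result.** -/
theorem result {Ω : Type*} [MeasurableSpace Ω] (P : Measure Ω) [IsProbabilityMeasure P]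
    (δ : ℝ) (hδ0 : 2 / 9 < δ) (hδ1 : δ ≤ 2 / 3) (κ : ℝ) (hκ : 0 < κ)
    (ξ : ℕ → Ω → ℕ) (hm : ∀ n, Measurable (ξ n)) (hind : iIndepFun ξ P)
    (hdens : ∀ n j : ℕ, 1 ≤ n → (j : ℝ) ≤ (n : ℝ) ^ (3 * δ) →
      κ / (n : ℝ) ^ (3 * δ) ≤ P.real {ω | ξ n ω = j}) :
    ∀ᵐ ω ∂P, ∀ b c R : ℕ, 1 ≤ b → 1 ≤ c → ∃ N₀ : ℕ, ∀ m : ℕ, N₀ ≤ m →
      (R : ℕ∞) ≤ Set.encard {p : ℕ × ℕ × ℕ × ℕ | 1 ≤ p.1 ∧
        m = p.1 * (p.1 + 1) / 2 + (p.2.1 ^ 3 + ξ p.2.1 ω) + b * p.2.2.1 ^ 3 +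
          c * p.2.2.2 ^ 3} := by
  have hd : ∀ n j : ℕ, 1 ≤ n → (j : ℝ) ≤ (n : ℝ) ^ (δ * (3 : ℕ)) →
      κ / (n : ℝ) ^ (δ * (3 : ℕ)) ≤ P.real {ω | ξ n ω = j} := by
    intro n j hn hj
    have h : δ * ((3 : ℕ) : ℝ) = 3 * δ := by push_cast; ring
    rw [h] at hj ⊢
    exact hdens n j hn hj
  rw [ae_all_iff]
  intro b
  rw [ae_all_iff]
  intro c
  rw [ae_all_iff]
  intro R
  rcases Nat.eq_zero_or_pos R with rfl | hR
  · exact Eventually.of_forall fun ω _ _ => ⟨0, fun m _ => by simp⟩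
  by_cases hb : 1 ≤ b
  swap
  · exact Eventually.of_forall fun ω h => absurd h hb
  by_cases hc : 1 ≤ c
  swap
  · exact Eventually.of_forall fun ω _ h => absurd h hc
  have key : ∀ r : ℕ, ∀ᵐ ω ∂P, ∃ N₀ : ℕ, ∀ m : ℕ, N₀ ≤ m → ∃ w x y z : ℕ, y % R = r % R ∧ 1 ≤ w ∧
      m = w * (w + 1) / 2 + (x ^ 3 + ξ x ω) + b * y ^ 3 + c * z ^ 3 := by
    intro r
    have hg := Run7.h332.WP.gap_add (by norm_num) gap_tri (Run7.h332.WP.gap_add (by norm_num)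
      (gap_weighted b r R hb hR) (gap_weighted c 0 1 hc le_rfl))
    have h1 := Run7.h332.WP.one_perturbed P 3 (by norm_num) δ (by linarith)
      (by norm_num; linarith) κ hκ ξ hm hind hd _
      ((1 - 1 / ((2 : ℕ) : ℝ)) * ((1 - 1 / ((3 : ℕ) : ℝ)) * (1 - 1 / ((3 : ℕ) : ℝ))))
      (by norm_num) (by norm_num; linarith) (by norm_num) hg
    filter_upwards [h1] with ω hω
    obtain ⟨N₀, hN⟩ := hω
    refine ⟨N₀ + b * r ^ 3 + 1, fun m hm => ?_⟩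
    obtain ⟨s, ⟨a, ⟨w, rfl⟩, _, ⟨u, ⟨j, rfl⟩, v, ⟨z, rfl⟩, rfl⟩, rfl⟩, x, _, hs⟩ :=
      hN (m - b * r ^ 3 - 1) (by omega)
    refine ⟨w + 1, x, r + R * j, z, by simp, by omega, ?_⟩
    have h2 : b * (r + R * j) ^ 3 =
        b * r ^ 3 + b * (3 * r ^ 2 * (R * j) + 3 * r * (R * j) ^ 2 + (R * j) ^ 3) := by
      ring
    have h3 : 1 ≤ (w + 1) * (w + 1 + 1) / 2 := by
      have := two_tri (w + 1)
      nlinarith
    have h4 : c * z ^ 3 = c * (3 * 0 ^ 2 * (1 * z) + 3 * 0 * (1 * z) ^ 2 + (1 * z) ^ 3) := by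
      ring
    simp only at hs
    rw [h4, h2]
    omega
  have hall : ∀ᵐ ω ∂P, ∀ r : ℕ, ∃ N₀ : ℕ, ∀ m : ℕ, N₀ ≤ m → ∃ w x y z : ℕ, y % R = r % R ∧ 1 ≤ w ∧
      m = w * (w + 1) / 2 + (x ^ 3 + ξ x ω) + b * y ^ 3 + c * z ^ 3 := ae_all_iff.2 key
  filter_upwards [hall] with ω hω _ _
  choose N₀ hN₀ using hω
  refine ⟨∑ r ∈ Finset.range R, N₀ r, fun m hm => ?_⟩
  have h1 : ∀ r : Fin R, ∃ p : ℕ × ℕ × ℕ × ℕ, p.2.2.1 % R = (r : ℕ) ∧ 1 ≤ p.1 ∧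
      m = p.1 * (p.1 + 1) / 2 + (p.2.1 ^ 3 + ξ p.2.1 ω) + b * p.2.2.1 ^ 3 +
          c * p.2.2.2 ^ 3 := by
    intro r
    have h2 : N₀ r ≤ ∑ r ∈ Finset.range R, N₀ r :=
      Finset.single_le_sum (f := N₀) (fun _ _ => Nat.zero_le _) (Finset.mem_range.2 r.2)
    obtain ⟨w, x, y, z, hy, hw, h⟩ := hN₀ r m (le_trans h2 hm)
    exact ⟨(w, x, y, z), by rw [hy, Nat.mod_eq_of_lt r.2], hw, h⟩
  choose p hp using h1
  have hinj : Function.Injective p := by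
    intro r s hrs
    have h2 := (hp r).1
    have h3 := (hp s).1
    rw [hrs] at h2
    exact Fin.ext (h2.symm.trans h3)
  have hsub : Set.range p ⊆ {p : ℕ × ℕ × ℕ × ℕ | 1 ≤ p.1 ∧
        m = p.1 * (p.1 + 1) / 2 + (p.2.1 ^ 3 + ξ p.2.1 ω) + b * p.2.2.1 ^ 3 +
          c * p.2.2.2 ^ 3} := by
    rintro _ ⟨r, rfl⟩
    exact (hp r).2
  refine le_trans (le_of_eq ?_) (Set.encard_le_encard hsub)
  rw [← Set.image_univ, hinj.encard_image, Set.encard_univ]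
  simp

end Pool.Agent.Results.MP_6d0c3f_nt.PerturbedCube
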